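import Mathlib

set_option autoImplicit false

namespace Pool.Agent.Results.MP_2f9b3f_lc.Diamond

open Finset

/-- `M` is a marginal scenario. -/
def Scenario {n : ℕ} (M : Finset (Finset (Fin n))) : Prop :=
  ∅ ∈ M ∧ (∀ i, {i} ∈ M) ∧ ∀ T ∈ M, ∀ S ⊆ T, S ∈ M

/-- The polytope of marginal models on `M` with outcome sets `Fin (k i)`. -/
def Models {n : ℕ} (M : Finset (Finset (Fin n))) (k : Fin n → ℕ) :
    Set ((S : M) → ((i : S.1) → Fin (k i)) → ℝ) :=
  {p | (∀ S x, 0 ≤ p S x) ∧ (∀ S, ∑ x, p S x = 1) ∧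
    ∀ (S T : M) (h : S.1 ⊆ T.1) (x : (i : S.1) → Fin (k i)),
      p S x = ∑ y with (fun i : S.1 => y ⟨i, h i.2⟩) = x, p T y}

/-- `f` is a polymatroid. -/
def Polymatroid {n : ℕ} (f : Finset (Fin n) → ℝ) : Prop :=
  f ∅ = 0 ∧ (∀ S T, S ⊆ T → f S ≤ f T) ∧ ∀ S T, f (S ∪ T) + f (S ∩ T) ≤ f S + f T

section Aux

/-- the diamond graph -/
def D : Finset (Finset (Fin 4)) := {∅, {0}, {1}, {2}, {3}, {0, 1}, {0, 2}, {0, 3}, {1, 2}, {2, 3}}

/-- four equally likely atoms -/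
def g (S : Finset (Fin 4)) (j i : Fin 4) : Fin 3 :=
  if S = {1, 2} ∧ i = 2 then ![1, 2, 0, 0] j
  else if S = {2, 3} ∧ i = 3 then ![0, 0, 2, 1] j else ![0, 0, 1, 2] j

/-- counts -/
def N (S : Finset (Fin 4)) (y : S → Fin 3) : ℕ := #{j | (fun i : S => g S j i) = y}

/-- the model -/
noncomputable def p0 : (S : D) → ((i : S.1) → Fin ((fun _ => 3) i.1)) → ℝ :=
  fun S y => N S.1 y / 4

lemma perm : ∀ S ∈ D, ∀ T ∈ D, S ⊆ T → ∃ σ : Equiv.Perm (Fin 4), ∀ j, ∀ i ∈ S,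
    g T (σ j) i = g S j i := by decide +kernel

lemma p0_mem : p0 ∈ Models D fun _ => 3 := by
  refine ⟨fun S x => by unfold p0; positivity, fun S => ?_, fun S T h x => ?_⟩
  · unfold p0 N
    rw [← sum_div, ← Nat.cast_sum, ← card_eq_sum_card_fiberwise (by simp)]
    simp
  · unfold p0 N
    rw [← sum_div, ← Nat.cast_sum, sum_card_fiberwise_eq_card_filter]
    obtain ⟨σ, hσ⟩ := perm _ S.2 _ T.2 h
    congr 2
    refine card_equiv σ fun j => ?_
    simp only [mem_filter, mem_univ, true_and]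
    rw [show (fun i : S.1 => g T.1 (σ j) i) = fun i : S.1 => g S.1 j i from
      funext fun i => hσ j i i.2]

/-- assignments on a pair -/
def pr (i j : Fin 4) (a b : Fin 3) : ({i, j} : Finset (Fin 4)) → Fin 3 :=
  fun l => if l.1 = i then a else b

lemma pr_bij {i j : Fin 4} (h : i ≠ j) :
    Function.Bijective fun z : Fin 3 × Fin 3 => pr i j z.1 z.2 := by
  refine ⟨fun z z' e => Prod.ext ?_ ?_, fun y => ⟨(y ⟨i, by simp⟩, y ⟨j, by simp⟩), ?_⟩⟩
  · simpa [pr] using congrFun e ⟨i, by simp⟩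
  · simpa [pr, h.symm] using congrFun e ⟨j, by simp⟩
  · funext ⟨l, hl⟩
    simp only [mem_insert, mem_singleton] at hl
    rcases hl with rfl | rfl <;> simp [pr, h.symm]

lemma sum_pr {i j : Fin 4} (h : i ≠ j) (F : (({i, j} : Finset (Fin 4)) → Fin 3) → ℝ) :
    ∑ y, F y = ∑ a, ∑ b, F (pr i j a b) := by
  rw [← (pr_bij h).sum_comp, Fintype.sum_prod_type]

lemma one_eq {i : Fin 4} (y : ({i} : Finset (Fin 4)) → Fin 3) : ∃ a, y = fun _ => a :=
  ⟨y ⟨i, by simp⟩, funext fun ⟨l, hl⟩ => by obtain rfl := mem_singleton.1 hl; rfl⟩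

lemma sum_one {i : Fin 4} (F : (({i} : Finset (Fin 4)) → Fin 3) → ℝ) :
    ∑ y, F y = ∑ a, F fun _ => a :=
  (Function.Bijective.sum_comp ⟨fun _ _ e => congrFun e ⟨i, by simp⟩,
    fun y => (one_eq y).imp fun _ => Eq.symm⟩ F).symm

lemma marg {q : (S : D) → ((i : S.1) → Fin ((fun _ => 3) i.1)) → ℝ} (hq : q ∈ Models D fun _ => 3)
    {i j : Fin 4} (h : i ≠ j) (hi : {i} ∈ D) (hj : {j} ∈ D) (hij : {i, j} ∈ D) (c : Fin 3) :
    q ⟨_, hi⟩ (fun _ => c) = ∑ b, q ⟨_, hij⟩ (pr i j c b) ∧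
      q ⟨_, hj⟩ (fun _ => c) = ∑ a, q ⟨_, hij⟩ (pr i j a c) := by
  have e1 : ∀ a b, ((fun l : ({i} : Finset (Fin 4)) => pr i j a b ⟨l, by
      simp [mem_singleton.1 l.2]⟩) = fun _ => c) ↔ a = c := fun a b =>
    ⟨fun e => by simpa [pr] using congrFun e ⟨i, by simp⟩, fun e => funext fun l => by
      simp [pr, mem_singleton.1 l.2, e]⟩
  have e2 : ∀ a b, ((fun l : ({j} : Finset (Fin 4)) => pr i j a b ⟨l, by
      simp [mem_singleton.1 l.2]⟩) = fun _ => c) ↔ b = c := fun a b =>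
    ⟨fun e => by simpa [pr, h.symm] using congrFun e ⟨j, by simp⟩, fun e => funext fun l => by
      simp [pr, mem_singleton.1 l.2, e, h.symm]⟩
  constructor
  · rw [hq.2.2 ⟨_, hi⟩ ⟨_, hij⟩ (by simp), sum_filter, sum_pr h, sum_comm]
    simp [e1]
  · rw [hq.2.2 ⟨_, hj⟩ ⟨_, hij⟩ (by simp), sum_filter, sum_pr h]
    simp [e2]

lemma n0 : ∀ i a, N {i} (fun _ => a) = ![2, 1, 1] a := by decide +kernel
lemma n1 : ∀ j ≠ 0, ∀ a b, N {0, j} (pr 0 j a b) = ![![2, 0, 0], ![0, 1, 0], ![0, 0, 1]] a b := by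
  decide +kernel
lemma n3 : ∀ a b, N {1, 2} (pr 1 2 a b) = ![![0, 1, 1], ![1, 0, 0], ![1, 0, 0]] a b := by
  decide +kernel
lemma n4 : ∀ a b, N {2, 3} (pr 2 3 a b) = ![![2, 0, 0], ![0, 0, 1], ![0, 1, 0]] a b := by
  decide +kernel

lemma f3 {P : Fin 3 → Prop} : (∀ a, P a) ↔ P 0 ∧ P 1 ∧ P 2 := by
  simp [Fin.forall_fin_succ]

lemma uniq {q : (S : D) → ((i : S.1) → Fin ((fun _ => 3) i.1)) → ℝ} (hq : q ∈ Models D fun _ => 3)
    (hs : ∀ S y, N S.1 y = 0 → q S y = 0) : q = p0 := by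
  have t := hq.2.1 ⟨{0}, by decide⟩
  rw [sum_one] at t
  have m1 := marg hq (i := 0) (j := 1) (by decide) (by decide) (by decide) (by decide)
  have m2 := marg hq (i := 0) (j := 2) (by decide) (by decide) (by decide) (by decide)
  have m3 := marg hq (i := 0) (j := 3) (by decide) (by decide) (by decide) (by decide)
  have m4 := marg hq (i := 1) (j := 2) (by decide) (by decide) (by decide) (by decide)
  have m5 := marg hq (i := 2) (j := 3) (by decide) (by decide) (by decide) (by decide)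
  have z1 := fun a b => hs ⟨{0, 1}, by decide⟩ (pr 0 1 a b)
  have z2 := fun a b => hs ⟨{0, 2}, by decide⟩ (pr 0 2 a b)
  have z3 := fun a b => hs ⟨{0, 3}, by decide⟩ (pr 0 3 a b)
  have z4 := fun a b => hs ⟨{1, 2}, by decide⟩ (pr 1 2 a b)
  have z5 := fun a b => hs ⟨{2, 3}, by decide⟩ (pr 2 3 a b)
  simp only [n1 1 (by decide), n1 2 (by decide), n1 3 (by decide), n3, n4, f3, Matrix.cons_val,
    forall_const, OfNat.ofNat_ne_zero, one_ne_zero, IsEmpty.forall_iff, true_and, and_true,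
    Fin.sum_univ_three] at t m1 m2 m3 m4 m5 z1 z2 z3 z4 z5
  simp only [z1, z2, z3, z4, z5, add_zero, zero_add] at m1 m2 m3 m4 m5
  casesm* _ ∧ _
  funext ⟨S, hS⟩ y
  have hS' := hS
  simp only [D, mem_insert, mem_singleton] at hS'
  rcases hS' with rfl | rfl | rfl | rfl | rfl | rfl | rfl | rfl | rfl | rfl
  · have a := hq.2.1 ⟨_, hS⟩
    have b := p0_mem.2.1 ⟨_, hS⟩
    rw [Fintype.sum_subsingleton _ y] at a b
    rw [a, b]
  iterate 4
    obtain ⟨a, rfl⟩ := one_eq y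
    revert a
    simp only [p0, n0, f3, Matrix.cons_val, Nat.cast_ofNat, Nat.cast_one]
    refine ⟨?_, ?_, ?_⟩ <;> linarith
  all_goals
    obtain ⟨⟨a, b⟩, rfl⟩ := (pr_bij (by decide)).2 y
    revert a b
    simp only [p0, n1 1 (by decide), n1 2 (by decide), n1 3 (by decide), n3, n4, f3,
      Matrix.cons_val, Nat.cast_ofNat, Nat.cast_one, Nat.cast_zero]
    refine ⟨⟨?_, ?_, ?_⟩, ⟨?_, ?_, ?_⟩, ?_, ?_, ?_⟩ <;> linarith

end Aux

/-- An extreme point of a polytope of marginal models whose entropy function is not the restriction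
of a polymatroid. -/
theorem result : ∃ (n : ℕ) (M : Finset (Finset (Fin n))) (k : Fin n → ℕ), Scenario M ∧
    (∀ i, 0 < k i) ∧ ∃ p ∈ (Models M k).extremePoints ℝ, ¬ ∃ f : Finset (Fin n) → ℝ,
      Polymatroid f ∧ ∀ S : M, f S.1 = ∑ x, Real.negMulLog (p S x) := by
  refine ⟨4, D, fun _ => 3, by unfold Scenario; decide +kernel, fun _ => by norm_num, p0,
    mem_extremePoints.2 ⟨p0_mem, ?_⟩, ?_⟩
  · rintro u hu v hv ⟨s, t, hs, ht, -, e⟩
    have k : ∀ S y, N S.1 y = 0 → s * u S y + t * v S y = 0 := fun S y h => by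
      have := congrFun (congrFun e S) y
      simpa [p0, h] using this
    constructor
    · refine uniq hu fun S y h => ?_
      have := k S y h
      nlinarith [hu.1 S y, mul_nonneg ht.le (hv.1 S y)]
    · refine uniq hv fun S y h => ?_
      have := k S y h
      nlinarith [hv.1 S y, mul_nonneg hs.le (hu.1 S y)]
  · rintro ⟨f, ⟨-, h1, h2⟩, h⟩
    have a := h2 {0, 1} {0, 2}
    have b := h1 {1, 2} ({0, 1} ∪ {0, 2}) (by decide)
    rw [show ({0, 1} ∩ {0, 2} : Finset (Fin 4)) = {0} by decide] at a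
    have l2 : Real.negMulLog ((2 : ℕ) / 4) = Real.log 2 / 2 := by
      rw [show ((2 : ℕ) / 4 : ℝ) = 2⁻¹ by norm_num, Real.negMulLog, Real.log_inv]; ring
    have l1 : Real.negMulLog ((1 : ℕ) / 4) = Real.log 2 / 2 := by
      rw [show ((1 : ℕ) / 4 : ℝ) = (2 ^ 2)⁻¹ by norm_num, Real.negMulLog, Real.log_inv,
        Real.log_pow]; ring
    have l0 : Real.negMulLog ((0 : ℕ) / 4) = 0 := by simp
    have c := h ⟨{0}, by decide⟩
    have d := h ⟨{0, 1}, by decide⟩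
    have e := h ⟨{0, 2}, by decide⟩
    have k := h ⟨{1, 2}, by decide⟩
    rw [sum_one] at c
    rw [sum_pr (by decide)] at d e k
    simp only [p0, n0, n1 1 (by decide), n1 2 (by decide), n3,
      Fin.sum_univ_three, Matrix.cons_val, l0, l1, l2] at c d e k
    linarith [Real.log_pos one_lt_two]

end Pool.Agent.Results.MP_2f9b3f_lc.Diamond
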